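import Mathlib

/-!
Hindman's theorem for sums of at most two elements and three colours: the colouring attached to a
relation of events, and the combinatorial core of the coding.
-/

namespace Pool.Agent.H55.HT3

/-- the 2-adic valuation (with value `0` at `0`) -/
def low (n : ℕ) : ℕ := Nat.findGreatest (fun k => 2 ^ k ∣ n) n

lemma low_dvd {n : ℕ} (_hn : 0 < n) : 2 ^ low n ∣ n := by
  unfold low
  exact Nat.findGreatest_spec (P := fun k => 2 ^ k ∣ n) (Nat.zero_le n) (by simp)

lemma le_low {n k : ℕ} (hn : 0 < n) (h : 2 ^ k ∣ n) : k ≤ low n := by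
  unfold low
  have h1 := Nat.le_of_dvd hn h
  have h2 := Nat.lt_two_pow_self (n := k)
  exact Nat.le_findGreatest (P := fun k => 2 ^ k ∣ n) (by omega) h

lemma dvd_iff {n k : ℕ} (hn : 0 < n) : 2 ^ k ∣ n ↔ k ≤ low n :=
  ⟨le_low hn, fun h => dvd_trans (pow_dvd_pow 2 h) (low_dvd hn)⟩

lemma low_eq_of {n m : ℕ} (hn : 0 < n) (hm : 0 < m) (h : ∀ k, 2 ^ k ∣ n ↔ 2 ^ k ∣ m) :
    low n = low m := by
  apply le_antisymm
  · exact le_low hm ((h _).mp (low_dvd hn))
  · exact le_low hn ((h _).mpr (low_dvd hm))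

lemma low_zero : low 0 = 0 := by
  unfold low; simp

lemma pos_of_low {n : ℕ} (h : 0 < low n) : 0 < n := by
  rcases Nat.eq_zero_or_pos n with rfl | hn
  · rw [low_zero] at h; omega
  · exact hn

lemma low_two_mul {n : ℕ} (hn : 0 < n) : low (2 * n) = low n + 1 := by
  apply le_antisymm
  · by_contra hc
    have h1 : low n + 2 ≤ low (2 * n) := by omega
    have h2 : 2 ^ (low n + 2) ∣ 2 * n := (dvd_iff (by omega)).mpr h1
    have h3 : 2 ^ (low n + 1) ∣ n := by
      rw [show low n + 2 = (low n + 1) + 1 by ring, pow_succ, mul_comm] at h2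
      exact Nat.dvd_of_mul_dvd_mul_left (by norm_num) h2
    have := le_low hn h3
    omega
  · apply le_low (by omega)
    rw [pow_succ, mul_comm]
    exact Nat.mul_dvd_mul_left 2 (low_dvd hn)

lemma two_mul_div {n : ℕ} (h : 0 < low n) : 2 * (n / 2) = n := by
  have hn := pos_of_low h
  have : 2 ^ 1 ∣ n := (dvd_iff hn).mpr (by omega)
  omega

lemma low_div_two {n : ℕ} (h : 0 < low n) : low (n / 2) + 1 = low n := by
  have hn := pos_of_low h
  have h2 := two_mul_div h
  rw [← low_two_mul (by omega), h2]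

lemma four_mul_div {n : ℕ} (h : 2 ≤ low n) : 4 * (n / 4) = n := by
  have hn : 0 < n := pos_of_low (by omega)
  have : 2 ^ 2 ∣ n := (dvd_iff hn).mpr (by omega)
  omega

lemma low_div_four {n : ℕ} (h : 2 ≤ low n) : low (n / 4) + 2 = low n := by
  have h1 := low_div_two (n := n) (by omega)
  have h2 := low_div_two (n := n / 2) (by omega)
  have : n / 2 / 2 = n / 4 := by omega
  rw [this] at h2
  omega

lemma low_lt {n N : ℕ} (hn : 0 < n) (h : n < 2 ^ N) : low n < N := by
  by_contra hc
  have h1 := Nat.le_of_dvd hn (low_dvd hn)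
  have h2 : 2 ^ N ≤ 2 ^ low n := Nat.pow_le_pow_right (by norm_num) (by omega)
  omega

lemma two_pow_low_le {n : ℕ} (hn : 0 < n) : 2 ^ low n ≤ n := Nat.le_of_dvd hn (low_dvd hn)

lemma low_add {r N : ℕ} (z : ℕ) (hr : 0 < r) (h : r < 2 ^ N) : low (r + 2 ^ N * z) = low r := by
  apply low_eq_of (by omega) hr
  intro k
  by_cases hk : k ≤ N
  · have h1 : 2 ^ k ∣ 2 ^ N * z := dvd_mul_of_dvd_left (pow_dvd_pow 2 hk) z
    exact (Nat.dvd_add_left h1)
  · constructor
    · intro h2
      have h3 : 2 ^ N ∣ r + 2 ^ N * z := dvd_trans (pow_dvd_pow 2 (by omega)) h2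
      have h4 : 2 ^ N ∣ r := (Nat.dvd_add_left (dvd_mul_right _ _)).mp h3
      have := Nat.le_of_dvd hr h4
      omega
    · intro h2
      have h4 : 2 ^ N ∣ r := dvd_trans (pow_dvd_pow 2 (by omega)) h2
      have := Nat.le_of_dvd hr h4
      omega

/-! ### Important gaps -/

/-- the digit `p` of `n` ends a gap in which an event with value `< low n` happens -/
def Gap (R : ℕ → ℕ → Prop) (n p : ℕ) : Prop :=
  n.testBit p = true ∧ ∃ t < p, (low n ≤ t ∧ (∃ e < low n, R t e)) ∧
    ∀ q < p, t < q → n.testBit q = false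

open Classical in
/-- number of important gaps -/
noncomputable def imp (R : ℕ → ℕ → Prop) (n : ℕ) : ℕ :=
  ((Finset.range n).filter (Gap R n)).card

/-- an event with value `< low m` happens at or above the highest digit of `m` -/
def U (R : ℕ → ℕ → Prop) (m : ℕ) : Prop := ∃ t e, R t e ∧ e < low m ∧ m < 2 ^ (t + 1)

open Classical in
/-- the limit of the number of important gaps of `m + y`, as `y` tends to zero 2-adically -/
noncomputable def impI (R : ℕ → ℕ → Prop) (m : ℕ) : ℕ := imp R m + if U R m then 1 else 0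

lemma lt_of_testBit {n p : ℕ} (h : n.testBit p = true) : p < n := by
  have h1 := Nat.ge_two_pow_of_testBit h
  have h2 := Nat.lt_two_pow_self (n := p)
  omega

lemma imp_far (R : ℕ → ℕ → Prop) {m M z : ℕ} (hm : 0 < m) (hmM : m < 2 ^ M) (hz : 0 < z)
    (hev : ∀ t e, R t e → e < low m → t < M) : imp R (m + 2 ^ M * z) = impI R m := by
  classical
  set n := m + 2 ^ M * z with hn
  have hlow : low n = low m := low_add z hm hmM
  have hbit : ∀ p, n.testBit p = if p < M then m.testBit p else z.testBit (p - M) := by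
    intro p
    rw [hn, add_comm, Nat.testBit_two_pow_mul_add _ hmM]
  have hexz : ∃ q, z.testBit q = true := by
    by_contra hc
    push Not at hc
    have : z = 0 := Nat.eq_of_testBit_eq (fun i => by simpa using hc i)
    omega
  set q0 := Nat.find hexz with hq0
  have hq0s : z.testBit q0 = true := Nat.find_spec hexz
  have hq0m : ∀ q, q < q0 → z.testBit q = false := fun q hq => by
    simpa using Nat.find_min hexz hq
  have hhigh : ∀ p, M ≤ p → (Gap R n p ↔ p = M + q0 ∧ U R m) := by
    intro p hp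
    constructor
    · rintro ⟨h1, t, ht, ⟨htl, e, he, hR⟩, h3⟩
      rw [hlow] at he htl
      have htM : t < M := hev t e hR he
      rw [hbit, if_neg (by omega)] at h1
      have hpq : p = M + q0 := by
        by_contra hne
        have hle : q0 ≤ p - M := Nat.find_min' hexz h1
        have h4 := h3 (M + q0) (by omega) (by omega)
        rw [hbit, if_neg (by omega), Nat.add_sub_cancel_left, hq0s] at h4
        exact Bool.noConfusion h4
      refine ⟨hpq, t, e, hR, he, ?_⟩
      apply Nat.lt_pow_two_of_testBit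
      intro i hi
      by_cases hiM : i < M
      · have h4 := h3 i (by omega) (by omega)
        rw [hbit, if_pos hiM] at h4
        exact h4
      · exact Nat.testBit_lt_two_pow (lt_of_lt_of_le hmM (Nat.pow_le_pow_right (by norm_num)
          (by omega)))
    · rintro ⟨rfl, t, e, hR, he, hlt⟩
      have htM := hev t e hR he
      refine ⟨?_, t, by omega, ⟨?_, e, by rw [hlow]; exact he, hR⟩, ?_⟩
      · rw [hbit, if_neg (by omega), Nat.add_sub_cancel_left]
        exact hq0s
      · rw [hlow]
        have h5 := two_pow_low_le hm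
        have h6 : 2 ^ low m < 2 ^ (t + 1) := lt_of_le_of_lt h5 hlt
        have := (Nat.pow_lt_pow_iff_right (by norm_num)).mp h6
        omega
      · intro q hq htq
        rw [hbit]
        split
        · exact Nat.testBit_lt_two_pow (lt_of_lt_of_le hlt (Nat.pow_le_pow_right (by norm_num)
            (by omega)))
        · exact hq0m _ (by omega)
  have hlowp : ∀ p, p < M → (Gap R n p ↔ Gap R m p) := by
    intro p hp
    unfold Gap
    rw [hbit, if_pos hp, hlow]
    apply and_congr_right
    intro _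
    apply exists_congr
    intro t
    apply and_congr_right
    intro htp
    apply and_congr_right
    intro _
    constructor
    · intro h q hq htq
      have := h q hq htq
      rwa [hbit, if_pos (by omega)] at this
    · intro h q hq htq
      rw [hbit, if_pos (by omega)]
      exact h q hq htq
  have hmhigh : ∀ p, M ≤ p → ¬ Gap R m p := by
    rintro p hp ⟨h1, _⟩
    rw [Nat.testBit_lt_two_pow (lt_of_lt_of_le hmM (Nat.pow_le_pow_right (by norm_num) hp))] at h1
    exact Bool.noConfusion h1
  have hset : (Finset.range n).filter (Gap R n) =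
      (Finset.range m).filter (Gap R m) ∪ (if U R m then {M + q0} else ∅) := by
    ext p
    simp only [Finset.mem_union, Finset.mem_filter, Finset.mem_range]
    constructor
    · rintro ⟨hpn, hg⟩
      by_cases hp : p < M
      · left
        have h1 := (hlowp p hp).mp hg
        exact ⟨lt_of_testBit h1.1, h1⟩
      · right
        obtain ⟨h1, h2⟩ := (hhigh p (by omega)).mp hg
        rw [if_pos h2, h1]
        simp
    · rintro (⟨hpm, hg⟩ | h)
      · by_cases hp : p < M
        · have h1 := (hlowp p hp).mpr hg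
          exact ⟨lt_of_testBit h1.1, h1⟩
        · exact absurd hg (hmhigh p (by omega))
      · by_cases hU : U R m
        · rw [if_pos hU, Finset.mem_singleton] at h
          have h1 := (hhigh p (by omega)).mpr ⟨h, hU⟩
          exact ⟨lt_of_testBit h1.1, h1⟩
        · rw [if_neg hU] at h
          simp at h
  unfold imp impI
  rw [hset, Finset.card_union_of_disjoint]
  · congr 1
    split <;> simp
  · rw [Finset.disjoint_left]
    intro p hp hp2
    rw [Finset.mem_filter] at hp
    by_cases hU : U R m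
    · rw [if_pos hU, Finset.mem_singleton] at hp2
      exact hmhigh p (by omega) hp.2
    · rw [if_neg hU] at hp2
      simp at hp2

/-! ### The colouring -/

/-- the colour of `n` computed from the counting function `g` -/
def col (g : ℕ → ℕ) (n : ℕ) : ℕ :=
  if low n % 2 = 1 then (low n + g (n / 2)) % 3
  else (low n + g n + (if 2 ≤ low n ∧ (g n + 1) % 3 = g (n / 4) % 3 then 2 else 0)) % 3

lemma col_lt (g : ℕ → ℕ) (n : ℕ) : col g n < 3 := by
  unfold col
  split <;> omega

lemma col_two_mul (g : ℕ → ℕ) {n : ℕ} (hn : 0 < n) : col g (2 * n) ≠ col g n := by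
  have h1 := low_two_mul hn
  unfold col
  rw [h1]
  have e1 : 2 * n / 2 = n := by omega
  have e2 : 2 * n / 4 = n / 2 := by omega
  rw [e1, e2]
  by_cases ho : low n % 2 = 1
  · rw [if_neg (by omega), if_pos ho]
    by_cases hc : (g (2 * n) + 1) % 3 = g (n / 2) % 3
    · rw [if_pos ⟨by omega, hc⟩]
      omega
    · rw [if_neg (fun h => hc h.2)]
      omega
  · rw [if_pos (by omega), if_neg ho]
    split <;> omega

/-- events of value at most `k` happen before stage `N` -/
def Bdd (R : ℕ → ℕ → Prop) (k N : ℕ) : Prop := ∀ t e, R t e → e < k → t < N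

lemma Bdd.mono {R : ℕ → ℕ → Prop} {k N k' N' : ℕ} (h : Bdd R k N) (hk : k' ≤ k) (hN : N ≤ N') :
    Bdd R k' N' := fun t e hR he => lt_of_lt_of_le (h t e hR (by omega)) hN

lemma exists_Bdd {R : ℕ → ℕ → Prop} (hR : ∀ e, ∃ N, ∀ t, R t e → t < N) (k : ℕ) :
    ∃ N, Bdd R k N := by
  induction k with
  | zero => exact ⟨0, fun t e _ he => absurd he (by omega)⟩
  | succ k ih =>
    obtain ⟨N, hN⟩ := ih
    obtain ⟨N', hN'⟩ := hR k
    refine ⟨max N N', fun t e h he => ?_⟩
    rcases Nat.lt_succ_iff_lt_or_eq.mp he with h1 | h1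
    · exact lt_of_lt_of_le (hN t e h h1) (le_max_left _ _)
    · rw [h1] at h
      exact lt_of_lt_of_le (hN' t h) (le_max_right _ _)

lemma col_far (R : ℕ → ℕ → Prop) {r N z : ℕ} (hr : 0 < r) (hN : r < 2 ^ N) (hz : 0 < z)
    (hev : Bdd R (low r) (N - 2)) : col (imp R) (r + 2 ^ N * z) = col (impI R) r := by
  have hlow : low (r + 2 ^ N * z) = low r := low_add z hr hN
  unfold col
  rw [hlow]
  have hlt := low_lt hr hN
  by_cases ho : low r % 2 = 1
  · rw [if_pos ho, if_pos ho]
    obtain ⟨M, rfl⟩ : ∃ M, N = M + 1 := ⟨N - 1, by omega⟩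
    have h2 := two_mul_div (n := r) (by omega)
    have h3 := low_div_two (n := r) (by omega)
    have e : (r + 2 ^ (M + 1) * z) / 2 = r / 2 + 2 ^ M * z := by
      rw [pow_succ, show 2 ^ M * 2 * z = 2 * (2 ^ M * z) by ring]
      omega
    rw [e, imp_far R (m := r / 2) (M := M) (by omega) (by rw [pow_succ] at hN; omega) hz]
    intro t e hR he
    have := hev t e hR (by omega)
    omega
  · rw [if_neg ho, if_neg ho]
    rw [imp_far R (m := r) hr hN hz (fun t e hR he => by have := hev t e hR he; omega)]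
    by_cases h2 : 2 ≤ low r
    · obtain ⟨M, rfl⟩ : ∃ M, N = M + 2 := ⟨N - 2, by omega⟩
      have h4 := four_mul_div h2
      have h3 := low_div_four h2
      have e : (r + 2 ^ (M + 2) * z) / 4 = r / 4 + 2 ^ M * z := by
        rw [pow_add, show 2 ^ M * 2 ^ 2 * z = 4 * (2 ^ M * z) by ring]
        omega
      rw [e, imp_far R (m := r / 4) (M := M) (by omega) (by rw [pow_add] at hN; omega) hz]
      intro t e hR he
      have := hev t e hR (by omega)
      omega
    · rw [if_neg (fun h => h2 h.1), if_neg (fun h => h2 h.1)]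

/-- the solutions: `c` is constant on `H` and on the sums of two distinct elements of `H` -/
def Sol (c : ℕ → ℕ) (H : Set ℕ) : Prop :=
  ∃ i, (∀ x ∈ H, c x = i) ∧ ∀ x ∈ H, ∀ y ∈ H, x ≠ y → c (x + y) = i

/-- low tends to infinity along solutions -/
lemma low_unbounded {R : ℕ → ℕ → Prop} (hR : ∀ e, ∃ N, ∀ t, R t e → t < N) {H : Set ℕ}
    (hinf : H.Infinite) (hs : Sol (col (imp R)) H) (k : ℕ) :
    ∃ B, ∀ h ∈ H, low h ≤ k → h < B := by
  by_contra hc
  push Not at hc
  obtain ⟨i, hi1, hi2⟩ := hs
  obtain ⟨N0, hN0⟩ := exists_Bdd hR (k + 3)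
  set N := N0 + k + 5 with hN
  -- infinitely many elements of low valuation
  have hinfS : {h | h ∈ H ∧ low h ≤ k ∧ 2 ^ N ≤ h}.Infinite := by
    rw [Set.infinite_iff_exists_gt]
    intro a
    obtain ⟨h, h1, h2, h3⟩ := hc (max (a + 1) (2 ^ N))
    exact ⟨h, ⟨h1, h2, le_trans (le_max_right _ _) h3⟩,
      lt_of_lt_of_le (Nat.lt_succ_self a) (le_trans (le_max_left _ _) h3)⟩
  obtain ⟨h, hh, h', hh', hne, hmod⟩ := hinfS.exists_ne_map_eq_of_mapsTo
    (f := fun h => h % 2 ^ N) (t := Set.Iio (2 ^ N))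
    (fun x _ => Nat.mod_lt _ (by positivity)) (Set.finite_Iio _)
  obtain ⟨a1, a2, a3⟩ := hh
  obtain ⟨b1, b2, b3⟩ := hh'
  have hpos : 0 < h := lt_of_lt_of_le (by positivity) a3
  set r := (2 * h) % 2 ^ N with hr
  have hrlt : r < 2 ^ N := Nat.mod_lt _ (by positivity)
  have hlow2 : low (2 * h) = low h + 1 := low_two_mul hpos
  have hrpos : 0 < r := by
    by_contra h0
    have h0' : (2 * h) % 2 ^ N = 0 := by omega
    have : N ≤ low (2 * h) := (dvd_iff (by omega)).mp (Nat.dvd_of_mod_eq_zero h0')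
    omega
  have e1 : 2 * h = r + 2 ^ N * (2 * h / 2 ^ N) := (Nat.mod_add_div _ _).symm
  have hmod2 : (h + h') % 2 ^ N = r := by
    rw [hr, two_mul, Nat.add_mod, ← hmod, ← Nat.add_mod]
  have e2 : h + h' = r + 2 ^ N * ((h + h') / 2 ^ N) := by
    rw [← hmod2]
    exact (Nat.mod_add_div _ _).symm
  have z1 : 0 < 2 * h / 2 ^ N := Nat.div_pos (by omega) (by positivity)
  have z2 : 0 < (h + h') / 2 ^ N := Nat.div_pos (by omega) (by positivity)
  have hlr : low r = low h + 1 := by
    rw [← hlow2]
    conv_rhs => rw [e1]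
    rw [low_add _ hrpos hrlt]
  have hbdd : Bdd R (low r) (N - 2) := hN0.mono (by omega) (by omega)
  have c1 : col (imp R) (2 * h) = col (impI R) r := by
    conv_lhs => rw [e1]
    exact col_far R hrpos hrlt z1 hbdd
  have c2 : col (imp R) (h + h') = col (impI R) r := by
    conv_lhs => rw [e2]
    exact col_far R hrpos hrlt z2 hbdd
  have := col_two_mul (imp R) hpos
  apply this
  rw [c1, ← c2, hi2 h a1 h' b1 hne, hi1 h a1]

/-- the coding -/
lemma settled {R : ℕ → ℕ → Prop} (hR : ∀ e, ∃ N, ∀ t, R t e → t < N) {H : Set ℕ}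
    (hinf : H.Infinite) (hs : Sol (col (imp R)) H) {x : ℕ} (hx : x ∈ H) {t e : ℕ}
    (hte : R t e) (he : e + 2 < low x) : 2 ^ (t + 1) ≤ x := by
  by_contra hc
  have hc' : x < 2 ^ (t + 1) := by omega
  have hxpos : 0 < x := pos_of_low (by omega)
  obtain ⟨N0, hN0⟩ := exists_Bdd hR (low x)
  set N := N0 + x + 2 with hN
  have hxN : x < 2 ^ N := lt_of_lt_of_le (Nat.lt_two_pow_self (n := x))
    (Nat.pow_le_pow_right (by norm_num) (by omega))
  obtain ⟨B, hB⟩ := low_unbounded hR hinf hs N
  obtain ⟨y, hy, hyB⟩ := hinf.exists_gt (max B x)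
  have hlowy : N < low y := by
    by_contra h
    have := hB y hy (by omega)
    have := le_max_left B x
    omega
  have hxy : x ≠ y := by
    have := le_max_right B x
    omega
  have hypos : 0 < y := by omega
  obtain ⟨z, hz⟩ : 2 ^ N ∣ y := (dvd_iff hypos).mpr (by omega)
  have hzpos : 0 < z := by
    rcases Nat.eq_zero_or_pos z with h | h
    · rw [h, mul_zero] at hz; omega
    · exact h
  obtain ⟨i, hi1, hi2⟩ := hs
  have c1 := hi2 x hx y hy hxy
  rw [hz, col_far R hxpos hxN hzpos (hN0.mono (le_refl _) (by omega))] at c1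
  have c2 := hi1 x hx
  rw [← c1] at c2
  unfold col at c2
  by_cases ho : low x % 2 = 1
  · rw [if_pos ho, if_pos ho] at c2
    have h3 := low_div_two (n := x) (by omega)
    have hU : U R (x / 2) := ⟨t, e, hte, by omega, by omega⟩
    unfold impI at c2
    rw [if_pos hU] at c2
    omega
  · rw [if_neg ho, if_neg ho] at c2
    have h3 := low_div_four (n := x) (by omega)
    have hU : U R x := ⟨t, e, hte, by omega, by omega⟩
    have hU4 : U R (x / 4) := ⟨t, e, hte, by omega, by omega⟩
    unfold impI at c2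
    rw [if_pos hU, if_pos hU4] at c2
    by_cases hcond : (imp R x + 1) % 3 = imp R (x / 4) % 3
    · rw [if_pos ⟨by omega, hcond⟩, if_pos ⟨by omega, by omega⟩] at c2
      omega
    · rw [if_neg (fun h => hcond h.2), if_neg (fun h => hcond (by omega))] at c2
      omega

/-- the range of the events is read off from a solution -/
lemma decode {R : ℕ → ℕ → Prop} (hR : ∀ e, ∃ N, ∀ t, R t e → t < N) {H : Set ℕ}
    (hinf : H.Infinite) (hs : Sol (col (imp R)) H) {x : ℕ} (hx : x ∈ H) {e : ℕ}
    (he : e + 3 ≤ low x) : (∃ t, R t e) ↔ ∃ t < x, R t e := by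
  constructor
  · rintro ⟨t, ht⟩
    refine ⟨t, ?_, ht⟩
    have h1 := settled hR hinf hs hx ht (by omega)
    have h2 := Nat.lt_two_pow_self (n := t + 1)
    omega
  · rintro ⟨t, _, ht⟩
    exact ⟨t, ht⟩

lemma exists_high {R : ℕ → ℕ → Prop} (hR : ∀ e, ∃ N, ∀ t, R t e → t < N) {H : Set ℕ}
    (hinf : H.Infinite) (hs : Sol (col (imp R)) H) (k : ℕ) : ∃ x ∈ H, k ≤ low x := by
  obtain ⟨B, hB⟩ := low_unbounded hR hinf hs k
  obtain ⟨y, hy, hyB⟩ := hinf.exists_gt B
  refine ⟨y, hy, ?_⟩
  by_contra h
  have := hB y hy (by omega)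
  omega

end Pool.Agent.H55.HT3
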