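import Mathlib
import Pool.Agent.EMP.Oracle
import Pool.Agent.H55.HT3.Core

/-!
Computability of the three-colouring relative to the events, and of the decoding relative to the
events and a solution.
-/

namespace Pool.Agent.H55.HT3

open Pool.Agent.EMP

/-! ### Bounded quantifiers -/

lemma exists_lt' {β : Type*} [Primcodable β] {R : ℕ → β → Prop} (hf : PrimrecRel R) :
    PrimrecRel fun (n : ℕ) (y : β) => ∃ x < n, R x y :=
  (hf.exists_mem_list.comp (Primrec.list_range.comp Primrec.fst) Primrec.snd).of_eq (by simp)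

lemma forall_lt' {β : Type*} [Primcodable β] {R : ℕ → β → Prop} (hf : PrimrecRel R) :
    PrimrecRel fun (n : ℕ) (y : β) => ∀ x < n, R x y :=
  (hf.forall_mem_list.comp (Primrec.list_range.comp Primrec.fst) Primrec.snd).of_eq (by simp)

lemma prim_pow : Primrec₂ (fun a b : ℕ => a ^ b) := by
  have := (Primrec.nat_iff.mpr Nat.Primrec.pow)
  refine (this.comp (Primrec₂.natPair.comp Primrec.fst Primrec.snd)).of_eq (fun p => ?_)
  simp [Nat.unpaired]

lemma prim_dvd : PrimrecRel (fun a b : ℕ => a ∣ b) :=
  (Primrec.eq.comp (Primrec.nat_mod.comp Primrec.snd Primrec.fst) (Primrec.const 0)).of_eq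
    (fun _ => (Nat.dvd_iff_mod_eq_zero).symm)

lemma prim_testBit : PrimrecRel (fun n p : ℕ => n.testBit p = true) := by
  have h : PrimrecRel (fun n p : ℕ => n / 2 ^ p % 2 = 1) :=
    Primrec.eq.comp (Primrec.nat_mod.comp (Primrec.nat_div.comp Primrec.fst
      (prim_pow.comp (Primrec.const 2) Primrec.snd)) (Primrec.const 2)) (Primrec.const 1)
  refine h.of_eq (fun n p => ?_)
  rw [Nat.testBit_eq_decide_div_mod_eq]
  simp

lemma prim_low : Primrec low := by
  unfold low
  apply Primrec.nat_findGreatest Primrec.id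
  exact prim_dvd.comp (prim_pow.comp (Primrec.const 2) Primrec.snd) Primrec.fst

/-- the relation coded by the digits of `S` -/
def RS (S : ℕ) (t e : ℕ) : Prop := S.testBit (Nat.pair t e) = true

lemma prim_Gap : PrimrecRel (fun (p : ℕ) (y : ℕ × ℕ) => Gap (RS y.1) y.2 p) := by
  unfold Gap RS
  -- parameters: `(p, (S, n))`
  have hlow : Primrec (fun w : ℕ × (ℕ × ℕ) => low w.2.2) :=
    prim_low.comp (Primrec.snd.comp Primrec.snd)
  -- the inner existence, for `(t, (S, n))`
  have h1 : PrimrecRel (fun (e : ℕ) (w : ℕ × (ℕ × ℕ)) =>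
      w.2.1.testBit (Nat.pair w.1 e) = true) :=
    prim_testBit.comp (Primrec.fst.comp (Primrec.snd.comp Primrec.snd))
      (Primrec₂.natPair.comp (Primrec.fst.comp Primrec.snd) Primrec.fst)
  have h2 : PrimrecPred (fun w : ℕ × (ℕ × ℕ) => ∃ e < low w.2.2,
      w.2.1.testBit (Nat.pair w.1 e) = true) :=
    (exists_lt' h1).comp hlow Primrec.id
  -- the inner universal statement, for `(q, (t, n))`
  have h3 : PrimrecRel (fun (q : ℕ) (w : ℕ × ℕ) => (w.1 < q → w.2.testBit q = false)) := by
    have : PrimrecRel (fun (q : ℕ) (w : ℕ × ℕ) => (¬ (w.1 < q)) ∨ ¬ (w.2.testBit q = true)) := by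
      apply PrimrecPred.or
      · exact (Primrec.nat_lt.comp (Primrec.fst.comp Primrec.snd) Primrec.fst).not
      · exact (prim_testBit.comp (Primrec.snd.comp Primrec.snd) Primrec.fst).not
    refine this.of_eq (fun q w => ?_)
    rw [Bool.not_eq_true, imp_iff_not_or]
  have h4 := forall_lt' h3
  -- the middle statement, for `(t, (p, (S, n)))`
  have h5 : PrimrecRel (fun (t : ℕ) (w : ℕ × (ℕ × ℕ)) =>
      (low w.2.2 ≤ t ∧ (∃ e < low w.2.2, w.2.1.testBit (Nat.pair t e) = true)) ∧
      ∀ q < w.1, t < q → w.2.2.testBit q = false) := by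
    apply PrimrecPred.and
    · apply PrimrecPred.and
      · exact Primrec.nat_le.comp (hlow.comp Primrec.snd) Primrec.fst
      · exact h2.comp (Primrec.pair Primrec.fst (Primrec.snd.comp Primrec.snd))
    · exact h4.comp (Primrec.fst.comp Primrec.snd)
        (Primrec.pair Primrec.fst (Primrec.snd.comp (Primrec.snd.comp Primrec.snd)))
  have h6 := exists_lt' h5
  apply PrimrecPred.and
  · exact prim_testBit.comp (Primrec.snd.comp Primrec.snd) Primrec.fst
  · exact h6.comp Primrec.fst Primrec.id

lemma prim_imp : Primrec (fun y : ℕ × ℕ => imp (RS y.1) y.2) := by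
  classical
  have h := prim_Gap.listFilter
  have h2 : Primrec (fun y : ℕ × ℕ =>
      ((List.range y.2).filter (fun p => Gap (RS y.1) y.2 p)).length) :=
    Primrec.list_length.comp (h.comp (Primrec.list_range.comp Primrec.snd) Primrec.id)
  refine h2.of_eq (fun y => ?_)
  unfold imp
  rw [Finset.card, Finset.filter_val, Finset.range_val, Multiset.range, Multiset.filter_coe,
    Multiset.coe_card]

lemma prim_col : Primrec (fun y : ℕ × ℕ => col (imp (RS y.1)) y.2) := by
  unfold col
  have hn : Primrec (fun y : ℕ × ℕ => low y.2) := prim_low.comp Primrec.snd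
  have hdiv : ∀ k : ℕ, Primrec (fun y : ℕ × ℕ => imp (RS y.1) (y.2 / k)) := fun k =>
    prim_imp.comp (Primrec.pair Primrec.fst (Primrec.nat_div.comp Primrec.snd (Primrec.const k)))
  apply Primrec.ite
  · exact Primrec.eq.comp (Primrec.nat_mod.comp hn (Primrec.const 2)) (Primrec.const 1)
  · exact Primrec.nat_mod.comp (Primrec.nat_add.comp hn (hdiv 2)) (Primrec.const 3)
  · refine Primrec.nat_mod.comp (Primrec.nat_add.comp (Primrec.nat_add.comp hn prim_imp) ?_)
      (Primrec.const 3)
    apply Primrec.ite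
    · apply PrimrecPred.and
      · exact Primrec.nat_le.comp (Primrec.const 2) hn
      · exact Primrec.eq.comp (Primrec.nat_mod.comp (Primrec.nat_add.comp prim_imp
          (Primrec.const 1)) (Primrec.const 3)) (Primrec.nat_mod.comp (hdiv 4) (Primrec.const 3))
    · exact Primrec.const 2
    · exact Primrec.const 0

/-! ### Oracles -/

/-- the relation coded by a set of numbers -/
def RA (A : Om) (t e : ℕ) : Prop := A (Nat.pair t e) = true

/-- the number coding the first `n` values of `A` -/
def cd (A : Om) : ℕ → ℕ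
  | 0 => 0
  | n + 1 => cd A n + (if A n = true then 1 else 0) * 2 ^ n

lemma cd_lt (A : Om) (n : ℕ) : cd A n < 2 ^ n := by
  induction n with
  | zero => simp [cd]
  | succ n ih =>
    unfold cd
    rw [pow_succ]
    split <;> omega

lemma testBit_cd (A : Om) (n i : ℕ) : (cd A n).testBit i = true ↔ i < n ∧ A i = true := by
  induction n with
  | zero => simp [cd]
  | succ n ih =>
    unfold cd
    rw [add_comm, mul_comm, Nat.testBit_two_pow_mul_add _ (cd_lt A n)]
    by_cases hi : i < n
    · rw [if_pos hi, ih]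
      constructor
      · rintro ⟨_, h⟩; exact ⟨by omega, h⟩
      · rintro ⟨_, h⟩; exact ⟨hi, h⟩
    · rw [if_neg hi]
      by_cases hi2 : i = n
      · subst hi2
        rw [Nat.sub_self]
        by_cases hA : A i = true
        · simp [hA]
        · simp [hA]
      · have h1 : i - n ≠ 0 := by omega
        constructor
        · intro h
          exfalso
          by_cases hA : A n = true
          · rw [if_pos hA] at h
            have := Nat.testBit_lt_two_pow (x := 1) (i := i - n)
              (by have := Nat.one_lt_two_pow h1; omega)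
            rw [this] at h
            exact Bool.noConfusion h
          · rw [if_neg hA] at h
            simp at h
        · rintro ⟨h, _⟩
          omega

lemma recIn_comp2 {O : Set (ℕ →. ℕ)} {F G : ℕ → ℕ}
    (hF : Nat.RecursiveIn O (fun n => Part.some (F n)))
    (hG : Nat.RecursiveIn O (fun n => Part.some (G n))) :
    Nat.RecursiveIn O (fun n => Part.some (F (G n))) := by
  refine (Nat.RecursiveIn.comp hF hG).of_eq (fun n => ?_)
  change Part.bind (Part.some (G n)) (fun n => Part.some (F n)) = _
  rw [Part.bind_some]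

lemma recIn_cd {O : Set (ℕ →. ℕ)} {A : Om} (hA : Nat.RecursiveIn O (orc A)) :
    Nat.RecursiveIn O (fun n => Part.some (cd A n)) := by
  have p1 : Primrec (fun n : ℕ => n.unpair.1) := Primrec.fst.comp Primrec.unpair
  have p2 : Primrec (fun n : ℕ => n.unpair.2) := Primrec.snd.comp Primrec.unpair
  have hid : Nat.RecursiveIn O (fun n => Part.some (id n)) := recIn_some Primrec.id
  have h1 := recIn_pair hid (recIn_comp hA (F := fun p => p.unpair.2.unpair.1) (p1.comp p2))
  -- `q = pair (pair a (pair y i)) b`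
  have hF : Primrec (fun q : ℕ => q.unpair.1.unpair.2.unpair.2 +
      q.unpair.2 * 2 ^ (q.unpair.1.unpair.2.unpair.1)) :=
    Primrec.nat_add.comp (p2.comp (p2.comp p1)) (Primrec.nat_mul.comp p2
      (prim_pow.comp (Primrec.const 2) (p1.comp (p2.comp p1))))
  have h2 := recIn_comp' hF h1
  have h3 := Nat.RecursiveIn.prec (recIn_some (O := O) (Primrec.const 0 : Primrec (fun _ : ℕ => 0))) h2
  have h4 : Nat.RecursiveIn O (fun n => Part.some (Nat.pair 0 n)) :=
    recIn_some (Primrec₂.natPair.comp (Primrec.const 0) Primrec.id)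
  refine (Nat.RecursiveIn.comp h3 h4).of_eq (fun n => ?_)
  refine Eq.trans (Part.bind_some _ _) ?_
  simp only [Nat.unpair_pair]
  induction n with
  | zero => rfl
  | succ n ih =>
    simp only
    rw [ih]
    refine Eq.trans (Part.bind_some _ _) ?_
    simp only [Nat.unpair_pair, id, cd]

lemma pair_lt {n t e : ℕ} (ht : t < n) (he : e < n) : Nat.pair t e < n * n := by
  have h := Nat.pair_lt_max_add_one_sq t e
  have h2 : max t e + 1 ≤ n := by
    rcases max_choice t e with h' | h' <;> omega
  calc Nat.pair t e < (max t e + 1) ^ 2 := h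
    _ ≤ n ^ 2 := Nat.pow_le_pow_left h2 2
    _ = n * n := sq n

lemma low_le (n : ℕ) : low n ≤ n := Nat.findGreatest_le n

lemma Gap_congr {R R' : ℕ → ℕ → Prop} {n : ℕ} (h : ∀ t < n, ∀ e < n, (R t e ↔ R' t e)) {p : ℕ}
    (hp : p < n) : Gap R n p ↔ Gap R' n p := by
  unfold Gap
  apply and_congr_right
  intro _
  apply exists_congr
  intro t
  apply and_congr_right
  intro htp
  apply and_congr_left
  intro _
  apply and_congr_right
  intro _
  apply exists_congr
  intro e
  apply and_congr_right
  intro he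
  have := low_le n
  exact h t (by omega) e (by omega)

lemma imp_congr' {R R' : ℕ → ℕ → Prop} {n : ℕ} (h : ∀ t < n, ∀ e < n, (R t e ↔ R' t e)) :
    imp R n = imp R' n := by
  classical
  unfold imp
  congr 1
  apply Finset.filter_congr
  intro p hp
  exact Gap_congr h (Finset.mem_range.mp hp)

lemma col_congr' {R R' : ℕ → ℕ → Prop} {n : ℕ} (h : ∀ t < n, ∀ e < n, (R t e ↔ R' t e)) :
    col (imp R) n = col (imp R') n := by
  have h0 := imp_congr' h
  have h2 : imp R (n / 2) = imp R' (n / 2) :=
    imp_congr' (fun t ht e he => h t (by omega) e (by omega))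
  have h4 : imp R (n / 4) = imp R' (n / 4) :=
    imp_congr' (fun t ht e he => h t (by omega) e (by omega))
  unfold col
  rw [h0, h2, h4]

lemma RS_cd (A : Om) {n t e : ℕ} (ht : t < n) (he : e < n) :
    RS (cd A (n * n)) t e ↔ RA A t e := by
  unfold RS RA
  rw [testBit_cd]
  constructor
  · exact fun h => h.2
  · exact fun h => ⟨pair_lt ht he, h⟩

/-- the colouring is computable in the events -/
lemma recIn_col {O : Set (ℕ →. ℕ)} {A : Om} (hA : Nat.RecursiveIn O (orc A)) :
    Nat.RecursiveIn O (fun n => Part.some (col (imp (RA A)) n)) := by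
  have hid : Nat.RecursiveIn O (fun n => Part.some (id n)) := recIn_some Primrec.id
  have hsq : Nat.RecursiveIn O (fun n => Part.some (n * n)) :=
    recIn_some (Primrec.nat_mul.comp Primrec.id Primrec.id)
  have h1 := recIn_pair (recIn_comp2 (recIn_cd hA) hsq) hid
  have hF : Primrec (fun q : ℕ => col (imp (RS q.unpair.1)) q.unpair.2) :=
    (prim_col.comp Primrec.unpair)
  refine (recIn_comp' hF h1).of_eq (fun n => ?_)
  simp only [Nat.unpair_pair, id]
  congr 1
  exact col_congr' (fun t ht e he => RS_cd A ht he)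

/-- the decoding -/
lemma recIn_decode {O : Set (ℕ →. ℕ)} {A H : Om} (hA : Nat.RecursiveIn O (orc A))
    (hH : Nat.RecursiveIn O (orc H)) (hex : ∀ e, ∃ x, H x = true ∧ e + 3 ≤ low x) {D : Om}
    (hD : ∀ e x, H x = true → e + 3 ≤ low x → (D e = true ↔ ∃ t < x, RA A t e)) :
    Nat.RecursiveIn O (orc D) := by
  classical
  have p1 : Primrec (fun n : ℕ => n.unpair.1) := Primrec.fst.comp Primrec.unpair
  have p2 : Primrec (fun n : ℕ => n.unpair.2) := Primrec.snd.comp Primrec.unpair
  have hid : Nat.RecursiveIn O (fun n => Part.some (id n)) := recIn_some Primrec.id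
  -- search for the element of `H`
  have h1 := recIn_pair hid (recIn_comp hH (F := fun p => p.unpair.2) p2)
  have hF : Primrec (fun q : ℕ => if q.unpair.2 = 1 ∧
      q.unpair.1.unpair.1 + 3 ≤ low q.unpair.1.unpair.2 then 0 else 1) := by
    apply Primrec.ite
    · apply PrimrecPred.and
      · exact Primrec.eq.comp p2 (Primrec.const 1)
      · exact Primrec.nat_le.comp (Primrec.nat_add.comp (p1.comp p1) (Primrec.const 3))
          (prim_low.comp (p2.comp p1))
    · exact Primrec.const 0
    · exact Primrec.const 1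
  have h2 := Nat.RecursiveIn.rfind (recIn_comp' hF h1)
  have h3 : Nat.RecursiveIn O (fun e => Part.some (Nat.find (hex e))) := by
    refine h2.of_eq (fun e => ?_)
    apply Part.eq_some_iff.mpr
    refine Nat.mem_rfind.mpr ⟨?_, fun {m} hm => ?_⟩
    · obtain ⟨s1, s2⟩ := Nat.find_spec (hex e)
      refine (Part.mem_map_iff _).mpr ⟨0, ?_, by simp⟩
      simp only [Nat.unpair_pair, id]
      rw [if_pos ⟨by rw [if_pos s1], s2⟩]
      exact Part.mem_some _
    · have s1 := Nat.find_min (hex e) hm
      refine (Part.mem_map_iff _).mpr ⟨1, ?_, by simp⟩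
      simp only [Nat.unpair_pair, id]
      rw [if_neg]
      · exact Part.mem_some _
      · rintro ⟨s2, s3⟩
        apply s1
        refine ⟨?_, s3⟩
        by_contra hne
        rw [if_neg hne] at s2
        omega
  -- the answer
  obtain ⟨fnd, hfnd⟩ : ∃ fnd : ℕ → ℕ, ∀ e, fnd e = Nat.find (hex e) :=
    ⟨fun e => Nat.find (hex e), fun _ => rfl⟩
  have hf1 : ∀ e, H (fnd e) = true ∧ e + 3 ≤ low (fnd e) := fun e => by
    rw [hfnd]; exact Nat.find_spec (hex e)
  simp only [← hfnd] at h3
  have h4 : Nat.RecursiveIn O (fun n => Part.some (Nat.pair (fnd n) (id n))) := recIn_pair h3 hid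
  have hs : Primrec (fun q : ℕ => q.unpair.1 + q.unpair.2 + 1) :=
    Primrec.succ.comp (Primrec.nat_add.comp p1 p2)
  have hB : Primrec (fun q : ℕ => (q.unpair.1 + q.unpair.2 + 1) * (q.unpair.1 + q.unpair.2 + 1)) :=
    Primrec.nat_mul.comp hs hs
  have h6 := recIn_comp' (O := O) (G := fun n => Nat.pair (fnd n) (id n)) hB h4
  simp only [Nat.unpair_pair, id] at h6
  have h7 : Nat.RecursiveIn O (fun n => Part.some (cd A ((fnd n + n + 1) * (fnd n + n + 1)))) :=
    recIn_comp2 (F := cd A) (G := fun n => (fnd n + n + 1) * (fnd n + n + 1)) (recIn_cd hA) h6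
  have h5 := recIn_pair (F := fun n => cd A ((fnd n + n + 1) * (fnd n + n + 1)))
    (G := fun n => Nat.pair (fnd n) (id n)) h7 h4
  have hthis : PrimrecRel (fun (t : ℕ) (w : ℕ × ℕ) => RS w.1 t w.2) := by
    unfold RS
    exact prim_testBit.comp (Primrec.fst.comp Primrec.snd)
      (Primrec₂.natPair.comp Primrec.fst (Primrec.snd.comp Primrec.snd))
  have hex' := exists_lt' hthis
  have hP : PrimrecPred (fun q : ℕ => ∃ t < q.unpair.2.unpair.1,
      RS q.unpair.1 t q.unpair.2.unpair.2) :=
    PrimrecRel.comp (R := fun (n : ℕ) (w : ℕ × ℕ) => ∃ t < n, RS w.1 t w.2) hex'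
      (f := fun q : ℕ => q.unpair.2.unpair.1) (g := fun q : ℕ => (q.unpair.1, q.unpair.2.unpair.2))
      (p1.comp p2) (Primrec.pair p1 (p2.comp p2))
  have hG : Primrec (fun q : ℕ => if ∃ t < q.unpair.2.unpair.1,
      RS q.unpair.1 t q.unpair.2.unpair.2 then 1 else 0) :=
    Primrec.ite hP (Primrec.const 1) (Primrec.const 0)
  have h8 := recIn_comp' (O := O) (G := fun n => Nat.pair (cd A ((fnd n + n + 1) *
    (fnd n + n + 1))) (Nat.pair (fnd n) (id n))) hG h5
  refine h8.of_eq (fun e => ?_)
  simp only [Nat.unpair_pair, id]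
  obtain ⟨s1, s2⟩ := hf1 e
  have hd := hD e _ s1 s2
  have key : (∃ t < fnd e, RS (cd A ((fnd e + e + 1) * (fnd e + e + 1))) t e) ↔ D e = true := by
    rw [hd]
    constructor
    · rintro ⟨t, ht, h⟩
      exact ⟨t, ht, (RS_cd A (n := fnd e + e + 1) (by omega) (by omega)).mp h⟩
    · rintro ⟨t, ht, h⟩
      exact ⟨t, ht, (RS_cd A (n := fnd e + e + 1) (by omega) (by omega)).mpr h⟩
  unfold orc
  congr 1
  by_cases hDe : D e = true
  · rw [if_pos hDe, if_pos (key.mpr hDe)]
  · rw [if_neg hDe, if_neg (fun h => hDe (key.mp h))]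

end Pool.Agent.H55.HT3
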